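import Pool.Agent.Helper86.AP.Main
import Pool.Agent.Helper87.UN.Orbit

/-!
# From strong escape to orbits near the superattracting point
-/

set_option autoImplicit false

namespace Pool.Agent.Helper17.AP

open Finset MvPolynomial
open Pool.Agent.Helper86.MQ (pm)
open Pool.Agent.Helper86.AP
open Pool.Agent.Helper87.UN (Orb)

/-- the norm as an absolute value -/
noncomputable def nav (Ω : Type*) [NormedField Ω] : AbsoluteValue Ω ℝ where
  toFun x := ‖x‖
  map_mul' := norm_mul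
  nonneg' := norm_nonneg
  eq_zero' _ := norm_eq_zero
  add_le' := norm_add_le

@[simp] theorem nav_apply {Ω : Type*} [NormedField Ω] (x : Ω) : nav Ω x = ‖x‖ := rfl

variable {Ω : Type*} [NormedField Ω] {m : ℕ}

/-- the size of a monomial -/
theorem norm_monomial_le (y : Fin (m + 1) → Ω) {X : ℝ} (hX : 1 ≤ X) (hy : ∀ i, ‖y i‖ ≤ X)
    (s : Fin (m + 1) →₀ ℕ) {e : ℕ} (hs : s.degree ≤ e) : ‖∏ i, y i ^ s i‖ ≤ X ^ e := by
  rw [norm_prod]
  calc ∏ i, ‖y i ^ s i‖ ≤ ∏ i, X ^ s i := by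
        refine Finset.prod_le_prod (fun i _ => norm_nonneg _) fun i _ => ?_
        rw [norm_pow]
        exact pow_le_pow_left₀ (norm_nonneg _) (hy i) _
    _ = X ^ s.degree := by
        rw [Finsupp.degree_eq_sum, Finset.prod_pow_eq_pow_sum]
    _ ≤ X ^ e := pow_le_pow_right₀ hX hs

variable [IsUltrametricDist Ω]

/-- a polynomial with integral coefficients of degree at most `e` -/
theorem norm_eval_le {F : MvPolynomial (Fin (m + 1)) Ω} {e : ℕ} (hF : F.totalDegree ≤ e)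
    (T : Set (Fin (m + 1) →₀ ℕ)) (hc : ∀ s ∉ T, ‖coeff s F‖ ≤ 1)
    (y : Fin (m + 1) → Ω) {X : ℝ} (hX : 1 ≤ X) (hy : ∀ i, ‖y i‖ ≤ X)
    (A : Finset (Fin (m + 1) →₀ ℕ)) (hA : A ⊆ F.support) (hAT : ∀ s ∈ A, s ∉ T) :
    ‖∑ s ∈ A, coeff s F * ∏ i, y i ^ s i‖ ≤ X ^ e := by
  refine IsUltrametricDist.norm_sum_le_of_forall_le_of_nonneg (by positivity) ?_
  intro s hs
  rw [norm_mul]
  have h1 := hc s (hAT s hs)
  have h2 := norm_monomial_le y hX hy s ((le_totalDegree (hA hs)).trans hF)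
  calc ‖coeff s F‖ * ‖∏ i, y i ^ s i‖ ≤ 1 * X ^ e :=
        mul_le_mul h1 h2 (norm_nonneg _) zero_le_one
    _ = X ^ e := one_mul _

variable {w : Fin (m + 1) → ℕ} {P : ℝ}

/-- One step from a point of strong escape. -/
theorem step_of_GE (hP : 1 < P) {Φ : Fin (m + 1) → MvPolynomial (Fin (m + 1)) Ω}
    (hΦ : EPre P w Φ) {y : Fin (m + 1) → Ω} (hy : GE P y) :
    ‖pm Φ y (Fin.last m)‖ = P * ‖y (Fin.last m)‖ ^ w (Fin.last m) ∧
      ∀ i, i ≠ Fin.last m → ‖pm Φ y i‖ ≤ ‖y (Fin.last m)‖ ^ w i := by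
  classical
  have hX : 1 ≤ ‖y (Fin.last m)‖ := hP.le.trans hy.1
  have hX0 : 0 < ‖y (Fin.last m)‖ := by linarith
  refine ⟨?_, fun i hi => ?_⟩
  · set s₀ : Fin (m + 1) →₀ ℕ := Finsupp.single (Fin.last m) (w (Fin.last m)) with hs₀
    have hne : coeff s₀ (Φ (Fin.last m)) ≠ 0 := by
      intro h0
      have h1 := hΦ.one
      rw [h0, norm_zero] at h1
      linarith
    have hmem : s₀ ∈ (Φ (Fin.last m)).support := mem_support_iff.2 hne
    have h1 : pm Φ y (Fin.last m) = coeff s₀ (Φ (Fin.last m)) * ∏ i, y i ^ s₀ i +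
        ∑ s ∈ (Φ (Fin.last m)).support.erase s₀,
          coeff s (Φ (Fin.last m)) * ∏ i, y i ^ s i := by
      rw [pm, eval_eq', ← Finset.add_sum_erase _ _ hmem]
    have h2 : ∏ i, y i ^ s₀ i = y (Fin.last m) ^ w (Fin.last m) := by
      rw [Finset.prod_eq_single (Fin.last m)]
      · simp [hs₀]
      · intro b _ hb
        rw [hs₀, Finsupp.single_apply, if_neg (Ne.symm hb), pow_zero]
      · simp
    have h3 : ‖coeff s₀ (Φ (Fin.last m)) * ∏ i, y i ^ s₀ i‖ =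
        P * ‖y (Fin.last m)‖ ^ w (Fin.last m) := by
      rw [h2, norm_mul, norm_pow, hΦ.one]
    have h4 : ‖∑ s ∈ (Φ (Fin.last m)).support.erase s₀,
        coeff s (Φ (Fin.last m)) * ∏ i, y i ^ s i‖ ≤ ‖y (Fin.last m)‖ ^ w (Fin.last m) := by
      refine norm_eval_le (hΦ.deg _) {s₀} ?_ y hX hy.2 _ (Finset.erase_subset _ _) ?_
      · intro s hs
        exact hΦ.int _ _ fun h => hs h.2
      · intro s hs
        exact (Finset.mem_erase.1 hs).1
    have h5 : ‖y (Fin.last m)‖ ^ w (Fin.last m) < P * ‖y (Fin.last m)‖ ^ w (Fin.last m) := by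
      have h6 : 0 < ‖y (Fin.last m)‖ ^ w (Fin.last m) := by positivity
      nlinarith
    rw [h1, IsUltrametricDist.norm_add_eq_max_of_norm_ne_norm, h3]
    · exact max_eq_left (h4.trans h5.le)
    · rw [h3]
      exact ne_of_gt (lt_of_le_of_lt h4 h5)
  · rw [pm, eval_eq']
    refine norm_eval_le (hΦ.deg _) ∅ ?_ y hX hy.2 _ (Finset.Subset.refl _) ?_
    · intro s _
      exact hΦ.int _ _ fun h => hi h.1
    · intro s _
      exact Set.notMem_empty _

/-- **Strong escape gives an orbit in the sense of the count.** -/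
theorem orb_of_GE (hP : 1 < P) (hd : 2 ≤ w (Fin.last m))
    (hlt : ∀ i, i ≠ Fin.last m → w i < w (Fin.last m))
    {Φ : Fin (m + 1) → MvPolynomial (Fin (m + 1)) Ω} (hΦ : EPre P w Φ)
    {x : Fin (m + 1) → Ω} {N : ℕ} (h : ∀ n, N ≤ n → GE P ((pm Φ)^[n] x)) :
    Pool.Agent.Helper87.UN.Orb (nav Ω) P Φ (fun n => (pm Φ)^[N + n] x) where
  step n := by
    change (pm Φ)^[N + n + 1] x = _
    rw [Function.iterate_succ_apply']
  big n := (h _ (Nat.le_add_right _ _)).1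
  le n i := (h _ (Nat.le_add_right _ _)).2 i
  grow n := by
    change ‖((pm Φ)^[N + n] x) (Fin.last m)‖ ^ 2 ≤ ‖((pm Φ)^[N + n + 1] x) (Fin.last m)‖
    have hy := h (N + n) (Nat.le_add_right _ _)
    rw [Function.iterate_succ_apply', (step_of_GE hP hΦ hy).1]
    set X := ‖((pm Φ)^[N + n] x) (Fin.last m)‖ with hX
    have hX1 : 1 ≤ X := hP.le.trans hy.1
    have h1 : X ^ 2 ≤ X ^ w (Fin.last m) := pow_le_pow_right₀ hX1 hd
    have h2 : 0 < X ^ w (Fin.last m) := by positivity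
    nlinarith
  ratio n i hi := by
    change ‖((pm Φ)^[N + n + 1] x) i‖ * ‖((pm Φ)^[N + n] x) (Fin.last m)‖ ≤
      ‖((pm Φ)^[N + n + 1] x) (Fin.last m)‖
    have hy := h (N + n) (Nat.le_add_right _ _)
    have h0 := step_of_GE hP hΦ hy
    rw [Function.iterate_succ_apply', h0.1]
    have h3 := h0.2 i hi
    set X := ‖((pm Φ)^[N + n] x) (Fin.last m)‖ with hX
    have hX1 : 1 ≤ X := hP.le.trans hy.1
    have h1 : X ^ (w i + 1) ≤ X ^ w (Fin.last m) := pow_le_pow_right₀ hX1 (hlt i hi)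
    have h2 : 0 < X ^ w (Fin.last m) := by positivity
    calc ‖pm Φ ((pm Φ)^[N + n] x) i‖ * X ≤ X ^ w i * X :=
          mul_le_mul_of_nonneg_right h3 (by linarith)
      _ = X ^ (w i + 1) := by ring
      _ ≤ X ^ w (Fin.last m) := h1
      _ ≤ P * X ^ w (Fin.last m) := by nlinarith

end Pool.Agent.Helper17.AP
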