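import Pool.Agent.Helper57.BG.Data

/-!
# (A'), block TI: type I sums, one modulus
-/

open Finset

namespace Pool.Agent.Helper17.AP

/-- the number of `e` in an interval of length `E` with `D' e ≡ k (n)` is `E / n` up to one -/
theorem cnt (n : ℕ) (hn : 0 < n) (D' : ℕ) (hD : Nat.Coprime D' n) (k : ℤ) (A E : ℕ) :
    |(∑ e ∈ Ioc A (A + E), (if (n : ℤ) ∣ (D' : ℤ) * e - k then (1 : ℝ) else 0)) - (E : ℝ) / n| ≤ 1 := by
  classical
  have : NeZero n := ⟨hn.ne'⟩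
  set v : ℕ := ((D' : ZMod n)⁻¹ * (k : ZMod n)).val with hv
  have hu : (D' : ZMod n) * (D' : ZMod n)⁻¹ = 1 := ZMod.coe_mul_inv_eq_one D' hD
  have hkey : ∀ e : ℕ, (n : ℤ) ∣ (D' : ℤ) * e - k ↔ e ≡ v [MOD n] := by
    intro e
    rw [← ZMod.intCast_zmod_eq_zero_iff_dvd, ← ZMod.natCast_eq_natCast_iff, hv, ZMod.natCast_zmod_val]
    push_cast
    rw [sub_eq_zero]
    constructor
    · intro h
      rw [← h, ← mul_assoc, mul_comm _ (D' : ZMod n), hu, one_mul]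
    · intro h
      rw [h, ← mul_assoc, hu, one_mul]
  have hs : (∑ e ∈ Ioc A (A + E), (if (n : ℤ) ∣ (D' : ℤ) * e - k then (1 : ℝ) else 0)) =
      (((Ioc A (A + E)).filter (fun e => e ≡ v [MOD n])).card : ℝ) := by
    rw [card_filter]
    push_cast
    exact sum_congr rfl fun e _ => by simp only [hkey e]
  rw [hs]
  have h1 := Nat.Ioc_filter_modEq_card A (A + E) hn v
  have hle : ⌊((A : ℤ) - (v : ℤ) : ℚ) / n⌋ ≤ ⌊(((A + E : ℕ) : ℤ) - (v : ℤ) : ℚ) / n⌋ := by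
    apply Int.floor_le_floor
    have : (0 : ℚ) < n := by exact_mod_cast hn
    gcongr
    push_cast
    linarith [(Nat.cast_nonneg E : (0 : ℚ) ≤ E)]
  have hn' : (0 : ℝ) < n := by exact_mod_cast hn
  have h2 : ((((Ioc A (A + E)).filter (fun e => e ≡ v [MOD n])).card : ℤ) : ℚ) =
      (⌊(((A + E : ℕ) : ℤ) - (v : ℤ) : ℚ) / n⌋ : ℚ) - ⌊((A : ℤ) - (v : ℤ) : ℚ) / n⌋ := by
    rw [h1]
    rw [max_eq_left]
    · push_cast; ring_nf
    · push_cast at hle ⊢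
      linarith
  have hnq : (0 : ℚ) < n := by exact_mod_cast hn
  have f1 := Int.floor_le ((((A + E : ℕ) : ℤ) - (v : ℤ) : ℚ) / n)
  have f2 := Int.lt_floor_add_one ((((A + E : ℕ) : ℤ) - (v : ℤ) : ℚ) / n)
  have f3 := Int.floor_le (((A : ℤ) - (v : ℤ) : ℚ) / n)
  have f4 := Int.lt_floor_add_one (((A : ℤ) - (v : ℤ) : ℚ) / n)
  have e1 : ((((A + E : ℕ) : ℤ) - (v : ℤ) : ℚ) / n) = ((A : ℤ) - (v : ℤ) : ℚ) / n + E / n := by
    push_cast; ring
  have h3 : |((((Ioc A (A + E)).filter (fun e => e ≡ v [MOD n])).card : ℤ) : ℚ) - E / n| ≤ 1 := by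
    rw [h2, abs_le]
    constructor <;> linarith
  have h4 : (((|((((Ioc A (A + E)).filter (fun e => e ≡ v [MOD n])).card : ℤ) : ℚ) - E / n| : ℚ)) : ℝ) ≤ ((1 : ℚ) : ℝ) := by
    exact_mod_cast h3
  push_cast at h4
  exact h4

open Classical in
/-- type I, one modulus -/
theorem TI (d0 r' D' : ℕ) (hd0 : 0 < d0) (hr : 0 < r') (hdr : Nat.Coprime d0 r') (hD' : 0 < D')
    (hDr : Nat.Coprime D' r') (k : ℤ) (hk : Int.gcd k (d0 * r' : ℕ) = 1) (A E : ℕ) :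
    |(∑ e ∈ Ioc A (A + E),
        ((if ((d0 * r' : ℕ) : ℤ) ∣ (D' : ℤ) * e - k then (1 : ℝ) else 0) -
          1 / r' * (if (d0 : ℤ) ∣ (D' : ℤ) * e - k then (1 : ℝ) else 0)))| ≤ 2 := by
  have hrr : (1 : ℝ) ≤ r' := by exact_mod_cast hr
  by_cases hc : Nat.Coprime D' d0
  · have h1 := cnt (d0 * r') (Nat.mul_pos hd0 hr) D' (Nat.Coprime.mul_right hc hDr) k A E
    have h2 := cnt d0 hd0 D' hc k A E
    rw [sum_sub_distrib, ← mul_sum]
    set S1 := ∑ e ∈ Ioc A (A + E), (if ((d0 * r' : ℕ) : ℤ) ∣ (D' : ℤ) * e - k then (1 : ℝ) else 0)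
    set S2 := ∑ e ∈ Ioc A (A + E), (if (d0 : ℤ) ∣ (D' : ℤ) * e - k then (1 : ℝ) else 0)
    have hd : (0 : ℝ) < d0 := by exact_mod_cast hd0
    have e1 : S1 - 1 / r' * S2 = (S1 - (E : ℝ) / ((d0 * r' : ℕ) : ℝ)) - 1 / r' * (S2 - (E : ℝ) / d0) := by
      push_cast
      field_simp
      ring
    rw [e1]
    refine (abs_sub _ _).trans ?_
    rw [abs_mul, abs_of_nonneg (by positivity : (0 : ℝ) ≤ 1 / r')]
    have h3 : 1 / (r' : ℝ) * |S2 - (E : ℝ) / d0| ≤ 1 * 1 :=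
      mul_le_mul (by rw [div_le_one (by linarith)]; exact hrr) h2 (abs_nonneg _) zero_le_one
    linarith
  · -- no solutions
    have h0 : ∀ e : ℕ, ¬ (d0 : ℤ) ∣ (D' : ℤ) * e - k := by
      intro e he
      apply hc
      set g := Nat.gcd D' d0 with hg
      have hg1 : (g : ℤ) ∣ k := by
        have a1 : (g : ℤ) ∣ (D' : ℤ) * e - k := dvd_trans (by exact_mod_cast Nat.gcd_dvd_right D' d0) he
        have a2 : (g : ℤ) ∣ (D' : ℤ) * e := Dvd.dvd.mul_right (by exact_mod_cast Nat.gcd_dvd_left D' d0) _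
        have := dvd_sub a2 a1
        simpa using this
      have hg2 : (g : ℤ) ∣ ((d0 * r' : ℕ) : ℤ) := by
        exact_mod_cast (Nat.gcd_dvd_right D' d0).mul_right r'
      have hg3 := Int.dvd_gcd hg1 hg2
      rw [hk] at hg3
      have : g ∣ 1 := by exact_mod_cast hg3
      exact Nat.dvd_one.1 this
    have h1 : ∀ e : ℕ, ¬ ((d0 * r' : ℕ) : ℤ) ∣ (D' : ℤ) * e - k := by
      intro e he
      exact h0 e (dvd_trans (by push_cast; exact Dvd.intro _ rfl) he)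
    rw [sum_eq_zero]
    · norm_num
    · intro e _
      rw [if_neg (h1 e), if_neg (h0 e)]
      ring

end Pool.Agent.Helper17.AP
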