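import Pool.Agent.Helper8.AP.Ph

/-!
# (A'), block UHa: geometric sums and the finite Fourier expansion of a hat function modulo `u`
-/

set_option autoImplicit false

open Finset
open Pool.Agent.Helper8.AP (ez ez_add ez_zero ez_neg norm_ez ez_eq_std)

namespace Pool.Agent.Helper17.AP

/-- the discrete Fejer kernel -/
noncomputable def KK (u Δ : ℕ) (h : ℤ) : ℝ := ‖∑ a ∈ range Δ, ez u (h * a)‖ ^ 2 / Δ

private lemma ez_pow17 (u : ℕ) (m : ℤ) (n : ℕ) : ez u (m * n) = ez u m ^ n := by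
  induction n with
  | zero => simp [ez_zero]
  | succ n ih =>
    rw [pow_succ, ← ih, ← ez_add]
    congr 1
    push_cast
    ring

private lemma ez_ne_one17 {u : ℕ} (hu : 0 < u) {m : ℤ} (h : ¬ (u : ℤ) ∣ m) : ez u m ≠ 1 := by
  have : NeZero u := ⟨hu.ne'⟩
  intro h1
  apply h
  rw [ez_eq_std] at h1
  have h2 : (m : ZMod u) = 0 := by
    apply ZMod.injective_stdAddChar
    rw [h1, AddChar.map_zero_eq_one]
  exact (ZMod.intCast_zmod_eq_zero_iff_dvd m u).1 h2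

private lemma ez_dvd17 {u : ℕ} (hu : 0 < u) {m : ℤ} (h : (u : ℤ) ∣ m) : ez u m = 1 := by
  have : NeZero u := ⟨hu.ne'⟩
  rw [ez_eq_std, (ZMod.intCast_zmod_eq_zero_iff_dvd m u).2 h, AddChar.map_zero_eq_one]

private lemma dist17 {u : ℕ} (hu : 0 < u) {h : ℤ} (hh : 2 * |h| ≤ (u : ℤ)) :
    4 * |(h : ℝ)| / u ≤ ‖ez u h - 1‖ := by
  have hu' : (0 : ℝ) < u := by exact_mod_cast hu
  have e1 : ez u h = Complex.exp (Complex.I * ((2 * Real.pi * h / u : ℝ) : ℂ)) := by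
    unfold Pool.Agent.Helper8.AP.ez
    congr 1
    push_cast
    ring
  rw [e1, Complex.norm_exp_I_mul_ofReal_sub_one, Real.norm_eq_abs, abs_mul, abs_of_pos (by norm_num : (0 : ℝ) < 2)]
  have hh' : 2 * |(h : ℝ)| ≤ u := by exact_mod_cast hh
  have hx : |2 * Real.pi * h / u / 2| ≤ Real.pi / 2 := by
    have : 2 * Real.pi * h / u / 2 = Real.pi * ((h : ℝ) / u) := by ring
    rw [this, abs_mul, abs_of_pos Real.pi_pos, abs_div, abs_of_pos hu']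
    have h3 : |(h : ℝ)| / u ≤ 1 / 2 := by rw [div_le_iff₀ hu']; linarith
    calc Real.pi * (|(h : ℝ)| / u) ≤ Real.pi * (1 / 2) := by gcongr
      _ = Real.pi / 2 := by ring
  have h4 := Real.mul_abs_le_abs_sin hx
  have h5 : |2 * Real.pi * h / u / 2| = Real.pi * (|(h : ℝ)| / u) := by
    have : 2 * Real.pi * h / u / 2 = Real.pi * ((h : ℝ) / u) := by ring
    rw [this, abs_mul, abs_of_pos Real.pi_pos, abs_div, abs_of_pos hu']
  rw [h5] at h4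
  have h6 : 2 / Real.pi * (Real.pi * (|(h : ℝ)| / u)) = 2 * |(h : ℝ)| / u := by
    field_simp
  rw [h6] at h4
  calc 4 * |(h : ℝ)| / u = 2 * (2 * |(h : ℝ)| / u) := by ring
    _ ≤ _ := by gcongr

private lemma geo17 {u : ℕ} (hu : 0 < u) {h : ℤ} (h0 : h ≠ 0) (hh : 2 * |h| ≤ (u : ℤ)) (Δ : ℕ) :
    ‖∑ a ∈ range Δ, ez u (h * a)‖ ≤ u / (2 * |(h : ℝ)|) := by
  have hu' : (0 : ℝ) < u := by exact_mod_cast hu
  have hd := dist17 hu hh
  have hpos : 0 < |(h : ℝ)| := abs_pos.2 (by exact_mod_cast h0)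
  have hp : 0 < ‖ez u h - 1‖ := lt_of_lt_of_le (by positivity) hd
  have hne : ez u h ≠ 1 := by
    intro h1
    rw [h1] at hp
    simp at hp
  have e1 : ∑ a ∈ range Δ, ez u (h * a) = (ez u h ^ Δ - 1) / (ez u h - 1) := by
    rw [← geom_sum_eq hne]
    exact sum_congr rfl fun a _ => ez_pow17 u h a
  rw [e1, norm_div]
  have h2 : ‖ez u h ^ Δ - 1‖ ≤ 2 := by
    refine (norm_sub_le _ _).trans ?_
    rw [norm_pow, norm_ez, one_pow, norm_one]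
    norm_num
  calc ‖ez u h ^ Δ - 1‖ / ‖ez u h - 1‖ ≤ 2 / (4 * |(h : ℝ)| / u) := by gcongr
    _ = u / (2 * |(h : ℝ)|) := by
      field_simp
      ring

theorem KK_half (u Δ : ℕ) (h : ℤ) (hu : 0 < u) (hΔ : 0 < Δ) (h0 : h ≠ 0) (hh : 2 * |h| ≤ (u : ℤ)) :
    KK u Δ h ≤ u / (2 * |(h : ℝ)|) := by
  have hD : (0 : ℝ) < Δ := by exact_mod_cast hΔ
  unfold KK
  have h1 := geo17 hu h0 hh Δ
  have h2 : ‖∑ a ∈ range Δ, ez u (h * a)‖ ≤ Δ := by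
    refine (norm_sum_le _ _).trans ?_
    simp [norm_ez]
  rw [pow_two, div_le_iff₀ hD]
  calc ‖∑ a ∈ range Δ, ez u (h * a)‖ * ‖∑ a ∈ range Δ, ez u (h * a)‖ ≤ (u / (2 * |(h : ℝ)|)) * Δ :=
        mul_le_mul h1 h2 (norm_nonneg _) (by positivity)

theorem KK_sq (u Δ : ℕ) (h : ℤ) (hu : 0 < u) (hΔ : 0 < Δ) (h0 : h ≠ 0) (hh : 2 * |h| ≤ (u : ℤ)) :
    KK u Δ h ≤ u ^ 2 / (4 * Δ) * ((h : ℝ) ^ 2)⁻¹ := by
  have hD : (0 : ℝ) < Δ := by exact_mod_cast hΔ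
  have hpos : 0 < |(h : ℝ)| := abs_pos.2 (by exact_mod_cast h0)
  unfold KK
  have h1 := geo17 hu h0 hh Δ
  calc ‖∑ a ∈ range Δ, ez u (h * a)‖ ^ 2 / Δ ≤ (u / (2 * |(h : ℝ)|)) ^ 2 / Δ := by gcongr
    _ = u ^ 2 / (4 * Δ) * ((h : ℝ) ^ 2)⁻¹ := by
      rw [div_pow, mul_pow, sq_abs]
      field_simp
      ring

private lemma KK_nonneg17 (u Δ : ℕ) (h : ℤ) : 0 ≤ KK u Δ h := by
  unfold KK
  positivity

/-- the complete residue system -/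
private def Rs17 (u : ℕ) : Finset ℤ := (range u).image fun i : ℕ => (i : ℤ) - ((u - 1) / 2 : ℕ)

private lemma sum_Rs17 (u : ℕ) (f : ℤ → ℂ) :
    ∑ h ∈ Rs17 u, f h = ∑ i ∈ range u, f ((i : ℤ) - ((u - 1) / 2 : ℕ)) := by
  unfold Rs17
  rw [sum_image]
  intro a _ b _ hab
  simpa using hab

private lemma mem_Rs17 {u : ℕ} (hu : 0 < u) (h : ℤ) :
    h ∈ Rs17 u ↔ -(((u - 1) / 2 : ℕ) : ℤ) ≤ h ∧ h ≤ ((u / 2 : ℕ) : ℤ) := by
  unfold Rs17
  rw [mem_image]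
  constructor
  · rintro ⟨i, hi, rfl⟩
    rw [mem_range] at hi
    omega
  · rintro ⟨h1, h2⟩
    refine ⟨(h + ((u - 1) / 2 : ℕ)).toNat, ?_, ?_⟩
    · rw [mem_range]
      omega
    · omega

private lemma orth17 {u : ℕ} (hu : 0 < u) (m : ℤ) :
    ∑ h ∈ Rs17 u, ez u (h * m) = if (u : ℤ) ∣ m then (u : ℂ) else 0 := by
  rw [sum_Rs17]
  have e1 : ∀ i : ℕ, ez u (((i : ℤ) - ((u - 1) / 2 : ℕ)) * m) =
      ez u (-((((u - 1) / 2 : ℕ) : ℤ) * m)) * ez u m ^ i := by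
    intro i
    rw [← ez_pow17, ← ez_add]
    congr 1
    ring
  rw [sum_congr rfl fun i _ => e1 i, ← mul_sum]
  split_ifs with h
  · rw [ez_dvd17 hu (Dvd.dvd.neg_right (Dvd.dvd.mul_left h _)) |>.trans rfl]
    simp [ez_dvd17 hu h]
  · rw [geom_sum_eq (ez_ne_one17 hu h), ← ez_pow17, ez_dvd17 hu (Dvd.intro_left m rfl)]
    simp

/-- the expansion over the complete residue system -/
private lemma full17 {u : ℕ} (hu : 0 < u) (Δ : ℕ) (τ j : ℤ) :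
    (1 / (Δ : ℂ)) * ∑ a ∈ range Δ, ∑ a' ∈ range Δ,
        (if (u : ℤ) ∣ j * Δ + a - a' - τ then (1 : ℂ) else 0) =
      (1 / (u : ℂ)) * ∑ h ∈ Rs17 u, ((KK u Δ h : ℝ) : ℂ) * ez u (h * (j * Δ - τ)) := by
  have hu' : (u : ℂ) ≠ 0 := by exact_mod_cast hu.ne'
  have e1 : ∀ m : ℤ, (if (u : ℤ) ∣ m then (1 : ℂ) else 0) = 1 / (u : ℂ) * ∑ h ∈ Rs17 u, ez u (h * m) := by
    intro m
    rw [orth17 hu]
    split_ifs
    · field_simp
    · simp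
  have e2 : ∀ h : ℤ, ((KK u Δ h : ℝ) : ℂ) = 1 / (Δ : ℂ) *
      ((∑ a ∈ range Δ, ez u (h * a)) * ∑ a' ∈ range Δ, ez u (-(h * a'))) := by
    intro h
    have e3 : ∑ a' ∈ range Δ, ez u (-(h * a')) = (starRingEnd ℂ) (∑ a' ∈ range Δ, ez u (h * a')) := by
      rw [map_sum]
      exact sum_congr rfl fun a _ => ez_neg _ _
    rw [e3, Complex.mul_conj, Complex.normSq_eq_norm_sq]
    unfold KK
    push_cast
    ring
  calc (1 / (Δ : ℂ)) * ∑ a ∈ range Δ, ∑ a' ∈ range Δ,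
        (if (u : ℤ) ∣ j * Δ + a - a' - τ then (1 : ℂ) else 0)
      = (1 / (Δ : ℂ)) * ∑ a ∈ range Δ, ∑ a' ∈ range Δ, 1 / (u : ℂ) * ∑ h ∈ Rs17 u,
          ez u (h * (j * Δ - τ)) * (ez u (h * a) * ez u (-(h * a'))) := by
        congr 1
        refine sum_congr rfl fun a _ => sum_congr rfl fun a' _ => ?_
        rw [e1]
        congr 1
        refine sum_congr rfl fun h _ => ?_
        rw [← ez_add, ← ez_add]
        congr 1
        ring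
    _ = (1 / (u : ℂ)) * ∑ h ∈ Rs17 u, ((KK u Δ h : ℝ) : ℂ) * ez u (h * (j * Δ - τ)) := by
        simp_rw [← mul_sum]
        rw [← mul_assoc, mul_comm (1 / (Δ : ℂ)) (1 / (u : ℂ)), mul_assoc]
        congr 1
        rw [sum_congr rfl fun a _ => sum_comm, sum_comm, mul_sum]
        refine sum_congr rfl fun h _ => ?_
        rw [e2, sum_mul_sum]
        simp_rw [← mul_sum]
        ring

theorem hat1 (u Δ H : ℕ) (hΔ : 0 < Δ) (hH : 1 ≤ H) (hHu : 2 * H < u) (τ j : ℤ) :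
    ‖(1 / (Δ : ℂ)) * ∑ a ∈ range Δ, ∑ a' ∈ range Δ,
        (if (u : ℤ) ∣ j * Δ + a - a' - τ then (1 : ℂ) else 0) - (Δ : ℂ) / u -
      (1 / (u : ℂ)) * ∑ h ∈ (Icc (-(H : ℤ)) H).erase 0, ((KK u Δ h : ℝ) : ℂ) * ez u (h * (j * Δ - τ))‖ ≤
      u / (2 * H * Δ) := by
  have hu : 0 < u := by omega
  have hu' : (0 : ℝ) < u := by exact_mod_cast hu
  have hD : (0 : ℝ) < Δ := by exact_mod_cast hΔ
  have hH' : (0 : ℝ) < H := by exact_mod_cast hH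
  have hsub : Icc (-(H : ℤ)) H ⊆ Rs17 u := by
    intro h hh
    rw [mem_Icc] at hh
    rw [mem_Rs17 hu]
    omega
  have h0 : (0 : ℤ) ∈ Icc (-(H : ℤ)) H := by
    rw [mem_Icc]
    omega
  set F : ℤ → ℂ := fun h => ((KK u Δ h : ℝ) : ℂ) * ez u (h * (j * Δ - τ)) with hF
  have hF0 : F 0 = Δ := by
    rw [hF]
    simp only [zero_mul, ez_zero, mul_one]
    unfold KK
    simp only [zero_mul, ez_zero, sum_const, card_range, nsmul_eq_mul, mul_one, Complex.norm_natCast]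
    push_cast
    field_simp
  have hsplit : ∑ h ∈ Rs17 u, F h = (Δ : ℂ) + ∑ h ∈ (Icc (-(H : ℤ)) H).erase 0, F h +
      ∑ h ∈ Rs17 u \ Icc (-(H : ℤ)) H, F h := by
    rw [← sum_sdiff hsub, ← add_sum_erase _ F h0, hF0]
    ring
  rw [full17 hu, hsplit]
  have e1 : 1 / (u : ℂ) * ((Δ : ℂ) + ∑ h ∈ (Icc (-(H : ℤ)) H).erase 0, F h +
      ∑ h ∈ Rs17 u \ Icc (-(H : ℤ)) H, F h) - (Δ : ℂ) / u -
      1 / (u : ℂ) * ∑ h ∈ (Icc (-(H : ℤ)) H).erase 0, F h =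
      1 / (u : ℂ) * ∑ h ∈ Rs17 u \ Icc (-(H : ℤ)) H, F h := by ring
  rw [e1, norm_mul, norm_div, norm_one, Complex.norm_natCast]
  have h1 : ‖∑ h ∈ Rs17 u \ Icc (-(H : ℤ)) H, F h‖ ≤
      ∑ h ∈ Rs17 u \ Icc (-(H : ℤ)) H, (u : ℝ) ^ 2 / (4 * Δ) * ((h : ℝ) ^ 2)⁻¹ := by
    refine (norm_sum_le _ _).trans (sum_le_sum fun h hh => ?_)
    rw [mem_sdiff, mem_Rs17 hu, mem_Icc] at hh
    rw [hF]
    simp only
    rw [norm_mul, norm_ez, mul_one, Complex.norm_real, Real.norm_eq_abs, abs_of_nonneg (KK_nonneg17 _ _ _)]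
    have hne : h ≠ 0 := by
      rintro rfl
      apply hh.2
      omega
    refine KK_sq u Δ h hu hΔ hne ?_
    rcases abs_cases h with ⟨a1, a2⟩ | ⟨a1, a2⟩ <;> rw [a1] <;> omega
  have h2 : ∑ h ∈ Rs17 u \ Icc (-(H : ℤ)) H, ((h : ℝ) ^ 2)⁻¹ ≤ 2 * (H : ℝ)⁻¹ := by
    have hs : Rs17 u \ Icc (-(H : ℤ)) H ⊆ (Ioc H u).image (fun n : ℕ => (n : ℤ)) ∪
        (Ioc H u).image (fun n : ℕ => -(n : ℤ)) := by
      intro h hh
      rw [mem_sdiff, mem_Rs17 hu, mem_Icc] at hh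
      rw [mem_union, mem_image, mem_image]
      rcases le_total 0 h with h3 | h3
      · left
        exact ⟨h.toNat, by rw [mem_Ioc]; omega, by omega⟩
      · right
        exact ⟨(-h).toNat, by rw [mem_Ioc]; omega, by omega⟩
    have hnn : ∀ h : ℤ, 0 ≤ ((h : ℝ) ^ 2)⁻¹ := fun h => by positivity
    have hb : ∑ n ∈ Ioc H u, ((n : ℝ) ^ 2)⁻¹ ≤ (H : ℝ)⁻¹ := by
      refine (sum_Ioc_inv_sq_le_sub (by omega) (by omega)).trans ?_
      have : (0 : ℝ) ≤ (u : ℝ)⁻¹ := by positivity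
      linarith
    calc ∑ h ∈ Rs17 u \ Icc (-(H : ℤ)) H, ((h : ℝ) ^ 2)⁻¹
        ≤ ∑ h ∈ (Ioc H u).image (fun n : ℕ => (n : ℤ)) ∪ (Ioc H u).image (fun n : ℕ => -(n : ℤ)),
            ((h : ℝ) ^ 2)⁻¹ := sum_le_sum_of_subset_of_nonneg hs fun h _ _ => hnn h
      _ ≤ ∑ h ∈ (Ioc H u).image (fun n : ℕ => (n : ℤ)), ((h : ℝ) ^ 2)⁻¹ +
            ∑ h ∈ (Ioc H u).image (fun n : ℕ => -(n : ℤ)), ((h : ℝ) ^ 2)⁻¹ := by
          rw [← sum_union_inter]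
          exact le_add_of_nonneg_right (sum_nonneg fun h _ => hnn h)
      _ ≤ (H : ℝ)⁻¹ + (H : ℝ)⁻¹ := by
          rw [sum_image (by intro a _ b _ hab; simpa using hab), sum_image (by intro a _ b _ hab; simpa using hab)]
          refine add_le_add ?_ ?_
          · simpa using hb
          · simpa using hb
      _ = 2 * (H : ℝ)⁻¹ := by ring
  rw [← mul_sum] at h1
  calc 1 / (u : ℝ) * ‖∑ h ∈ Rs17 u \ Icc (-(H : ℤ)) H, F h‖
      ≤ 1 / (u : ℝ) * ((u : ℝ) ^ 2 / (4 * Δ) * (2 * (H : ℝ)⁻¹)) := by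
        gcongr
        exact h1.trans (by gcongr)
    _ = u / (2 * H * Δ) := by
        field_simp
        ring

end Pool.Agent.Helper17.AP
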