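import Pool.Agent.Helper56.AP.Stmts

/-!
# (A'), block UT: type I sums for the structured moduli
-/

set_option autoImplicit false

open Finset Filter

namespace Pool.Agent.Helper17.AP

open Pool.Agent.AP

/-- residue classes in an interval -/
theorem cntm (n v A B : ℕ) (hn : 0 < n) (hAB : A ≤ B) :
    |(((Ioc A B).filter (fun e => e ≡ v [MOD n])).card : ℝ) - ((B : ℝ) - A) / n| ≤ 1 := by
  have h1 := Nat.Ioc_filter_modEq_card A B hn v
  have hnq : (0 : ℚ) < n := by exact_mod_cast hn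
  have hABq : (A : ℚ) ≤ B := by exact_mod_cast hAB
  have hle : ⌊((A : ℤ) - (v : ℤ) : ℚ) / n⌋ ≤ ⌊((B : ℤ) - (v : ℤ) : ℚ) / n⌋ := by
    apply Int.floor_le_floor
    gcongr
  have h2 : ((((Ioc A B).filter (fun e => e ≡ v [MOD n])).card : ℤ) : ℚ) =
      (⌊((B : ℤ) - (v : ℤ) : ℚ) / n⌋ : ℚ) - ⌊((A : ℤ) - (v : ℤ) : ℚ) / n⌋ := by
    rw [h1]
    rw [max_eq_left]
    · push_cast; ring_nf
    · push_cast at hle ⊢
      linarith
  have f1 := Int.floor_le (((B : ℤ) - (v : ℤ) : ℚ) / n)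
  have f2 := Int.lt_floor_add_one (((B : ℤ) - (v : ℤ) : ℚ) / n)
  have f3 := Int.floor_le (((A : ℤ) - (v : ℤ) : ℚ) / n)
  have f4 := Int.lt_floor_add_one (((A : ℤ) - (v : ℤ) : ℚ) / n)
  have e1 : (((B : ℤ) - (v : ℤ) : ℚ) / n) = ((A : ℤ) - (v : ℤ) : ℚ) / n + ((B : ℚ) - A) / n := by
    push_cast; ring
  have h3 : |((((Ioc A B).filter (fun e => e ≡ v [MOD n])).card : ℤ) : ℚ) - ((B : ℚ) - A) / n| ≤ 1 := by
    rw [h2, abs_le]
    constructor <;> linarith
  have h4 : (((|((((Ioc A B).filter (fun e => e ≡ v [MOD n])).card : ℤ) : ℚ) - ((B : ℚ) - A) / n| : ℚ)) : ℝ) ≤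
      ((1 : ℚ) : ℝ) := by
    exact_mod_cast h3
  push_cast at h4
  exact h4

/-- one modulus, coprime to `d` -/
theorem inner_cop (u d b m₀ M₀ M : ℕ) (k : ℤ) (hu : 0 < u) (hb : 0 < b) (hbu : Nat.Coprime b u)
    (hdu : Nat.Coprime d u) (hM : M₀ ≤ M) :
    |∑ m ∈ (Ioc M₀ M).filter (fun m => m ≡ m₀ [MOD b]),
      ((if (u : ℤ) ∣ (d : ℤ) * m + k then (1 : ℝ) else 0) - 1 / u)| ≤ 2 := by
  classical
  have : NeZero u := ⟨hu.ne'⟩
  set w : ℕ := (-((d : ZMod u)⁻¹ * (k : ZMod u))).val with hw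
  have hinv : (d : ZMod u) * (d : ZMod u)⁻¹ = 1 := ZMod.coe_mul_inv_eq_one d hdu
  have hkey : ∀ m : ℕ, (u : ℤ) ∣ (d : ℤ) * m + k ↔ m ≡ w [MOD u] := by
    intro e
    rw [← ZMod.intCast_zmod_eq_zero_iff_dvd, ← ZMod.natCast_eq_natCast_iff, hw, ZMod.natCast_zmod_val]
    push_cast
    constructor
    · intro h
      have h1 : (d : ZMod u) * e = -k := eq_neg_of_add_eq_zero_left h
      calc (e : ZMod u) = ((d : ZMod u) * (d : ZMod u)⁻¹) * e := by rw [hinv, one_mul]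
        _ = (d : ZMod u)⁻¹ * ((d : ZMod u) * e) := by ring
        _ = -((d : ZMod u)⁻¹ * k) := by rw [h1]; ring
    · intro h
      rw [h]
      calc (d : ZMod u) * -((d : ZMod u)⁻¹ * k) + k = -(((d : ZMod u) * (d : ZMod u)⁻¹) * k) + k := by ring
        _ = 0 := by rw [hinv]; ring
  obtain ⟨v, hv1, hv2⟩ := Nat.chineseRemainder hbu m₀ w
  have hboth : ((Ioc M₀ M).filter (fun m => m ≡ m₀ [MOD b])).filter (fun m : ℕ => (u : ℤ) ∣ (d : ℤ) * m + k) =
      (Ioc M₀ M).filter (fun m => m ≡ v [MOD b * u]) := by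
    rw [filter_filter]
    refine filter_congr fun m _ => ?_
    rw [hkey, ← Nat.modEq_and_modEq_iff_modEq_mul hbu]
    constructor
    · rintro ⟨h1, h2⟩
      exact ⟨h1.trans hv1.symm, h2.trans hv2.symm⟩
    · rintro ⟨h1, h2⟩
      exact ⟨h1.trans hv1, h2.trans hv2⟩
  have hu' : (1 : ℝ) ≤ u := by exact_mod_cast hu
  have hb' : (0 : ℝ) < b := by exact_mod_cast hb
  have h1 := cntm (b * u) v M₀ M (Nat.mul_pos hb hu) hM
  have h2 := cntm b m₀ M₀ M hb hM
  rw [sum_sub_distrib, ← sum_filter, hboth, sum_const, sum_const, nsmul_eq_mul, nsmul_eq_mul, mul_one]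
  set c1 : ℝ := (((Ioc M₀ M).filter (fun m => m ≡ v [MOD b * u])).card : ℝ)
  set c2 : ℝ := (((Ioc M₀ M).filter (fun m => m ≡ m₀ [MOD b])).card : ℝ)
  have e1 : c1 - c2 * (1 / u) = (c1 - ((M : ℝ) - M₀) / ((b * u : ℕ) : ℝ)) - 1 / u * (c2 - ((M : ℝ) - M₀) / b) := by
    push_cast
    field_simp
    ring
  rw [e1]
  refine (abs_sub _ _).trans ?_
  rw [abs_mul, abs_of_nonneg (by positivity : (0 : ℝ) ≤ 1 / (u : ℝ))]
  have h3 : 1 / (u : ℝ) * |c2 - ((M : ℝ) - M₀) / b| ≤ 1 * 1 :=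
    mul_le_mul (by rw [div_le_one (by linarith)]; exact hu') h2 (abs_nonneg _) zero_le_one
  linarith

/-- one modulus, not coprime to `d` -/
theorem inner_not (u d b m₀ M₀ M : ℕ) (k : ℤ) (hu : 0 < u) (hdu : ¬ Nat.Coprime d u) (hk : Int.gcd k u = 1) :
    |∑ m ∈ (Ioc M₀ M).filter (fun m => m ≡ m₀ [MOD b]),
      ((if (u : ℤ) ∣ (d : ℤ) * m + k then (1 : ℝ) else 0) - 1 / u)| ≤ M / u := by
  have hu' : (0 : ℝ) < u := by exact_mod_cast hu
  have h0 : ∀ m : ℕ, ¬ (u : ℤ) ∣ (d : ℤ) * m + k := by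
    intro m hm
    apply hdu
    have hg1 : ((Nat.gcd d u : ℕ) : ℤ) ∣ k := by
      have a1 : ((Nat.gcd d u : ℕ) : ℤ) ∣ (d : ℤ) * m + k := dvd_trans (by exact_mod_cast Nat.gcd_dvd_right d u) hm
      have a2 : ((Nat.gcd d u : ℕ) : ℤ) ∣ (d : ℤ) * m := Dvd.dvd.mul_right (by exact_mod_cast Nat.gcd_dvd_left d u) _
      exact (dvd_add_right a2).1 a1
    have hg2 : ((Nat.gcd d u : ℕ) : ℤ) ∣ (u : ℤ) := by exact_mod_cast Nat.gcd_dvd_right d u
    have hg3 := Int.dvd_coe_gcd hg1 hg2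
    rw [hk] at hg3
    exact Nat.dvd_one.1 (by exact_mod_cast hg3)
  rw [sum_congr rfl fun m _ => by rw [if_neg (h0 m), zero_sub], sum_const, nsmul_eq_mul, mul_neg, abs_neg,
    abs_of_nonneg (by positivity), mul_one_div]
  gcongr
  calc ((Ioc M₀ M).filter (fun m => m ≡ m₀ [MOD b])).card ≤ (Ioc M₀ M).card := card_filter_le _ _
    _ ≤ M := by simp

/-- `u / φ(u) ≤ 2 ^ ω(u)` -/
theorem div_tot (u : ℕ) (hu : 0 < u) : (u : ℝ) / Nat.totient u ≤ 2 ^ u.primeFactors.card := by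
  have hφ : (0 : ℝ) < Nat.totient u := by exact_mod_cast Nat.totient_pos.2 hu
  have h1 := Nat.totient_eq_mul_prod_factors u
  have h2 : ((Nat.totient u : ℚ) : ℝ) = ((u * ∏ p ∈ u.primeFactors, (1 - (p : ℚ)⁻¹) : ℚ) : ℝ) := by rw [h1]
  push_cast at h2
  have h3 : (1 / 2 : ℝ) ^ u.primeFactors.card ≤ ∏ p ∈ u.primeFactors, (1 - (p : ℝ)⁻¹) := by
    rw [← prod_const]
    refine prod_le_prod (fun _ _ => by norm_num) fun p hp => ?_
    have hp2 : (2 : ℝ) ≤ p := by exact_mod_cast (Nat.prime_of_mem_primeFactors hp).two_le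
    have : (p : ℝ)⁻¹ ≤ 1 / 2 := by
      rw [inv_eq_one_div]
      exact one_div_le_one_div_of_le (by norm_num) hp2
    linarith
  rw [div_le_iff₀ hφ, h2]
  have hu' : (0 : ℝ) ≤ u := by positivity
  calc (u : ℝ) = 2 ^ u.primeFactors.card * (u * (1 / 2 : ℝ) ^ u.primeFactors.card) := by
        rw [one_div, inv_pow]
        field_simp
    _ ≤ 2 ^ u.primeFactors.card * (u * ∏ p ∈ u.primeFactors, (1 - (p : ℝ)⁻¹)) := by gcongr

/-- the large prime divisors of `d` -/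
theorem card_large (z : ℝ) (hz : 1 < z) (d n : ℕ) (hd : 0 < d) (hdz : (d : ℝ) ≤ z ^ n) :
    (d.primeFactors.filter (fun p : ℕ => z < (p : ℝ))).card ≤ n := by
  set P := d.primeFactors.filter (fun p : ℕ => z < (p : ℝ)) with hP
  have h1 : z ^ P.card ≤ ∏ p ∈ P, (p : ℝ) := by
    rw [← prod_const]
    exact prod_le_prod (fun _ _ => by linarith) fun p hp => (mem_filter.1 hp).2.le
  have h2 : (∏ p ∈ P, p) ∣ d :=
    (prod_dvd_prod_of_subset _ _ _ (filter_subset _ _)).trans (Nat.prod_primeFactors_dvd d)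
  have h3 : ((∏ p ∈ P, p : ℕ) : ℝ) ≤ d := by exact_mod_cast Nat.le_of_dvd hd h2
  push_cast at h3
  exact (pow_le_pow_iff_right₀ hz).1 ((h1.trans h3).trans hdz)

/-- sum of `1 / u` over the `u ≤ X` which are multiples of `p` -/
theorem sum_mult (X p : ℕ) (hp : 0 < p) :
    ∑ u ∈ (Icc 1 X).filter (fun u => p ∣ u), (1 : ℝ) / u ≤ 1 / p * (1 + Real.log X) := by
  have hX : (X : ℝ) = X := rfl
  have h1 : ∑ u ∈ (Icc 1 X).filter (fun u => p ∣ u), (1 : ℝ) / u ≤ ∑ v ∈ Icc 1 X, 1 / (p : ℝ) * (1 / v) := by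
    have hsub : (Icc 1 X).filter (fun u => p ∣ u) ⊆ (Icc 1 X).image (fun v => p * v) := by
      intro u hu
      rw [mem_filter, mem_Icc] at hu
      obtain ⟨⟨h1, h2⟩, v, rfl⟩ := hu
      rw [mem_image]
      refine ⟨v, mem_Icc.2 ⟨?_, ?_⟩, rfl⟩
      · rcases Nat.eq_zero_or_pos v with h | h
        · subst h; simp at h1
        · exact h
      · exact (Nat.le_mul_of_pos_left v hp).trans h2
    refine (sum_le_sum_of_subset_of_nonneg hsub fun _ _ _ => by positivity).trans ?_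
    rw [sum_image]
    · refine le_of_eq (sum_congr rfl fun v _ => ?_)
      push_cast
      rw [one_div_mul_one_div]
    · intro a _ b _ hab
      exact Nat.eq_of_mul_eq_mul_left hp hab
  refine h1.trans ?_
  rw [← mul_sum]
  gcongr
  have h2 := harmonic_le_one_add_log X
  rw [harmonic_eq_sum_Icc] at h2
  push_cast at h2
  simpa [one_div] using h2

theorem UT (hPU : Stmt_PU_mem) : Stmt_UT := by
  unfold Stmt_UT
  have E1 : ∀ᶠ T : ℝ in atTop, 256 ≤ T ^ (1 / 10000 - 1 / 2000000 : ℝ) :=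
    (tendsto_rpow_atTop (by norm_num : (0 : ℝ) < 1 / 10000 - 1 / 2000000)).eventually_ge_atTop _
  have E2 : ∀ᶠ T : ℝ in atTop, 51200 ≤ T ^ (1 / 1000 : ℝ) :=
    (tendsto_rpow_atTop (by norm_num : (0 : ℝ) < 1 / 1000)).eventually_ge_atTop _
  have E3 : ∀ᶠ T : ℝ in atTop, ‖Real.log T‖ ≤ 1 / 51200 * ‖T ^ (1 / 1000 : ℝ)‖ :=
    (isLittleO_log_rpow_atTop (by norm_num : (0 : ℝ) < 1 / 1000)).bound (by norm_num)
  filter_upwards [hPU, E1, E2, E3, eventually_gt_atTop (2 : ℝ)] with T hT e1 e2 e3 hT2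
  intro J hJ hne k d b m₀ M₀ M hk hkT hd hdT hb hbT hM
  classical
  have hT0 : (0 : ℝ) < T := by linarith
  have hT1 : (1 : ℝ) < T := by linarith
  set z : ℝ := T ^ (1 / 100 : ℝ) with hz
  have hz1 : 1 < z := Real.one_lt_rpow hT1 (by norm_num)
  have hkz : |(k : ℝ)| < z := lt_of_le_of_lt hkT (Real.rpow_lt_rpow_of_exponent_lt hT1 (by norm_num))
  have hbz : (b : ℝ) < z := lt_of_le_of_lt hbT (Real.rpow_lt_rpow_of_exponent_lt hT1 (by norm_num))
  have hdz : (d : ℝ) ≤ z ^ 200 := by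
    refine hdT.trans (le_of_eq ?_)
    rw [hz, ← Real.rpow_natCast, ← Real.rpow_natCast, ← Real.rpow_mul hT0.le]
    norm_num
  set X : ℕ := ⌊T ^ (1 / 2 + 1 / 2000000 : ℝ)⌋₊ with hX
  have hXT : (X : ℝ) ≤ T ^ (1 / 2 + 1 / 2000000 : ℝ) := Nat.floor_le (by positivity)
  have hXT1 : (X : ℝ) ≤ T := hXT.trans (by
    calc T ^ (1 / 2 + 1 / 2000000 : ℝ) ≤ T ^ (1 : ℝ) :=
          Real.rpow_le_rpow_of_exponent_le hT1.le (by norm_num)
      _ = T := Real.rpow_one T)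
  -- the facts on the moduli
  have hU : ∀ u ∈ PU J, 0 < u ∧ u ≤ X ∧ (u : ℝ) / Nat.totient u ≤ 128 ∧
      (∀ p : ℕ, p.Prime → p ∣ u → z < p) := by
    intro u hu
    obtain ⟨h1, h2, h3, h4, h5, _⟩ := hT J hJ u hu
    have hu0 : 0 < u := Nat.pos_of_ne_zero h1.ne_zero
    refine ⟨hu0, Nat.le_floor h5, (div_tot u hu0).trans ?_, h4⟩
    calc (2 : ℝ) ^ u.primeFactors.card ≤ 2 ^ 7 :=
          pow_le_pow_right₀ (by norm_num) (by rw [h2]; exact h3)
      _ = 128 := by norm_num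
  have hco : ∀ u ∈ PU J, Nat.Coprime b u ∧ Int.gcd k u = 1 := by
    intro u hu
    obtain ⟨hu0, _, _, h4⟩ := hU u hu
    constructor
    · apply Nat.coprime_of_dvd
      intro p hp hpb hpu
      have h5 := h4 p hp hpu
      have h6 : (p : ℝ) ≤ b := by exact_mod_cast Nat.le_of_dvd (by omega) hpb
      linarith
    · rw [Int.gcd_eq_natAbs]
      simp only [Int.natAbs_natCast]
      apply Nat.coprime_of_dvd
      intro p hp hpk hpu
      have h5 := h4 p hp hpu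
      have h6 : (p : ℝ) ≤ (k.natAbs : ℝ) := by
        exact_mod_cast Nat.le_of_dvd (Int.natAbs_pos.2 hk) hpk
      rw [Nat.cast_natAbs, Int.cast_abs] at h6
      linarith
  set S : Finset ℕ := (Ioc M₀ M).filter (fun m => m ≡ m₀ [MOD b]) with hS
  have hsw : ∑ m ∈ S, UU J ((d : ℤ) * m + k) = ∑ u ∈ PU J, (u : ℝ) / Nat.totient u *
      ∑ m ∈ S, ((if (u : ℤ) ∣ (d : ℤ) * m + k then (1 : ℝ) else 0) - 1 / u) := by
    unfold UU
    rw [sum_comm]
    exact sum_congr rfl fun u _ => by rw [mul_sum]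
  rw [hsw]
  have hterm : ∀ u ∈ PU J, |(u : ℝ) / Nat.totient u *
      ∑ m ∈ S, ((if (u : ℤ) ∣ (d : ℤ) * m + k then (1 : ℝ) else 0) - 1 / u)| ≤
      256 + 128 * M * (if Nat.Coprime d u then 0 else (1 : ℝ) / u) := by
    intro u hu
    obtain ⟨hu0, _, h3, _⟩ := hU u hu
    rw [abs_mul, abs_of_nonneg (by positivity)]
    split_ifs with hc
    · have h5 := inner_cop u d b m₀ M₀ M k hu0 (by omega) (hco u hu).1 hc hM
      calc (u : ℝ) / Nat.totient u * |∑ m ∈ S, ((if (u : ℤ) ∣ (d : ℤ) * m + k then (1 : ℝ) else 0) - 1 / u)|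
          ≤ 128 * 2 := mul_le_mul h3 h5 (abs_nonneg _) (by norm_num)
        _ = 256 + 128 * M * 0 := by ring
    · have h5 := inner_not u d b m₀ M₀ M k hu0 hc (hco u hu).2
      calc (u : ℝ) / Nat.totient u * |∑ m ∈ S, ((if (u : ℤ) ∣ (d : ℤ) * m + k then (1 : ℝ) else 0) - 1 / u)|
          ≤ 128 * (M / u) := mul_le_mul h3 h5 (abs_nonneg _) (by norm_num)
        _ = 128 * M * (1 / u) := by ring
        _ ≤ 256 + 128 * M * (1 / u) := by linarith
  have hsub : PU J ⊆ Icc 1 X := fun u hu => mem_Icc.2 ⟨(hU u hu).1, (hU u hu).2.1⟩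
  have hcard : ((PU J).card : ℝ) ≤ T ^ (1 / 2 + 1 / 2000000 : ℝ) := by
    have h5 := card_le_card hsub
    rw [Nat.card_Icc, Nat.add_sub_cancel] at h5
    exact (by exact_mod_cast h5 : ((PU J).card : ℝ) ≤ X).trans hXT
  set P := d.primeFactors.filter (fun p : ℕ => z < (p : ℝ)) with hP
  have hPc : P.card ≤ 200 := card_large z hz1 d 200 (by omega) hdz
  have hlogX : 1 + Real.log X ≤ 1 + Real.log T := by
    rcases Nat.eq_zero_or_pos X with h | h
    · rw [h]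
      simp only [Nat.cast_zero, Real.log_zero]
      have := Real.log_nonneg hT1.le
      linarith
    · have := Real.log_le_log (by exact_mod_cast h) hXT1
      linarith
  have hlogT : 0 ≤ 1 + Real.log T := by
    have := Real.log_nonneg hT1.le
    linarith
  have hnc : ∑ u ∈ PU J, (if Nat.Coprime d u then 0 else (1 : ℝ) / u) ≤ 200 * (1 / z * (1 + Real.log T)) := by
    calc ∑ u ∈ PU J, (if Nat.Coprime d u then 0 else (1 : ℝ) / u)
        ≤ ∑ u ∈ PU J, ∑ p ∈ P, (if p ∣ u then (1 : ℝ) / u else 0) := by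
          refine sum_le_sum fun u hu => ?_
          split_ifs with hc
          · exact sum_nonneg fun p _ => by split_ifs <;> positivity
          · obtain ⟨p, hp, hpd, hpu⟩ := Nat.Prime.not_coprime_iff_dvd.1 hc
            have hpP : p ∈ P := by
              rw [hP, mem_filter, Nat.mem_primeFactors]
              exact ⟨⟨hp, hpd, by omega⟩, (hU u hu).2.2.2 p hp hpu⟩
            calc (1 : ℝ) / u = (if p ∣ u then (1 : ℝ) / u else 0) := by rw [if_pos hpu]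
              _ ≤ _ := single_le_sum (f := fun p => if p ∣ u then (1 : ℝ) / u else 0)
                  (fun p _ => by split_ifs <;> positivity) hpP
      _ = ∑ p ∈ P, ∑ u ∈ PU J, (if p ∣ u then (1 : ℝ) / u else 0) := sum_comm
      _ ≤ ∑ p ∈ P, 1 / z * (1 + Real.log T) := by
          refine sum_le_sum fun p hp => ?_
          rw [hP, mem_filter, Nat.mem_primeFactors] at hp
          have hp0 : 0 < p := hp.1.1.pos
          calc ∑ u ∈ PU J, (if p ∣ u then (1 : ℝ) / u else 0)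
              ≤ ∑ u ∈ Icc 1 X, (if p ∣ u then (1 : ℝ) / u else 0) :=
                sum_le_sum_of_subset_of_nonneg hsub fun u _ _ => by split_ifs <;> positivity
            _ = ∑ u ∈ (Icc 1 X).filter (fun u => p ∣ u), (1 : ℝ) / u := (sum_filter _ _).symm
            _ ≤ 1 / p * (1 + Real.log X) := sum_mult X p hp0
            _ ≤ 1 / p * (1 + Real.log T) := by gcongr
            _ ≤ 1 / z * (1 + Real.log T) := by
                gcongr
                exact hp.2.le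
      _ = P.card * (1 / z * (1 + Real.log T)) := by rw [sum_const, nsmul_eq_mul]
      _ ≤ 200 * (1 / z * (1 + Real.log T)) := by
          have : (P.card : ℝ) ≤ 200 := by exact_mod_cast hPc
          gcongr
  have hz2 : 1 / z = T ^ (-(1 / 100) : ℝ) := by
    rw [hz, Real.rpow_neg hT0.le, one_div]
  have f1 : 256 * T ^ (1 / 2 + 1 / 2000000 : ℝ) ≤ T ^ (5001 / 10000 : ℝ) := by
    calc 256 * T ^ (1 / 2 + 1 / 2000000 : ℝ) ≤ T ^ (1 / 10000 - 1 / 2000000 : ℝ) * T ^ (1 / 2 + 1 / 2000000 : ℝ) := by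
          gcongr
      _ = T ^ (5001 / 10000 : ℝ) := by
          rw [← Real.rpow_add hT0]
          norm_num
  have f2 : 25600 * (1 + Real.log T) ≤ T ^ (1 / 1000 : ℝ) := by
    rw [Real.norm_eq_abs, abs_of_nonneg (Real.log_nonneg hT1.le), Real.norm_eq_abs, abs_of_nonneg (by positivity)] at e3
    linarith
  have f3 : 128 * (200 * (1 / z * (1 + Real.log T))) ≤ T ^ (-(9 / 1000) : ℝ) := by
    rw [hz2]
    calc 128 * (200 * (T ^ (-(1 / 100) : ℝ) * (1 + Real.log T))) =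
          (25600 * (1 + Real.log T)) * T ^ (-(1 / 100) : ℝ) := by ring
      _ ≤ T ^ (1 / 1000 : ℝ) * T ^ (-(1 / 100) : ℝ) := by gcongr
      _ = T ^ (-(9 / 1000) : ℝ) := by
          rw [← Real.rpow_add hT0]
          norm_num
  calc |∑ u ∈ PU J, (u : ℝ) / Nat.totient u *
        ∑ m ∈ S, ((if (u : ℤ) ∣ (d : ℤ) * m + k then (1 : ℝ) else 0) - 1 / u)|
      ≤ ∑ u ∈ PU J, (256 + 128 * M * (if Nat.Coprime d u then 0 else (1 : ℝ) / u)) :=
        (abs_sum_le_sum_abs _ _).trans (sum_le_sum hterm)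
    _ = 256 * (PU J).card + 128 * M * ∑ u ∈ PU J, (if Nat.Coprime d u then 0 else (1 : ℝ) / u) := by
        rw [sum_add_distrib, ← mul_sum, sum_const, nsmul_eq_mul, mul_comm ((PU J).card : ℝ)]
    _ ≤ 256 * T ^ (1 / 2 + 1 / 2000000 : ℝ) + 128 * M * (200 * (1 / z * (1 + Real.log T))) := by gcongr
    _ = 256 * T ^ (1 / 2 + 1 / 2000000 : ℝ) + M * (128 * (200 * (1 / z * (1 + Real.log T)))) := by ring
    _ ≤ T ^ (5001 / 10000 : ℝ) + M * T ^ (-(9 / 1000) : ℝ) := by gcongr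

end Pool.Agent.Helper17.AP
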